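import Pool.Agent.Work.MP_35a6f4_lc.Learn

/-!
Context-free grammars have characteristic samples with polynomially many strings, for a suitable
polynomial-time learner.
-/

namespace Pool.Agent.Results.MP_35a6f4_lc.FewStrings

open Turing Pool.Agent.Work.MP_35a6f4_lc

/-- The code of a natural number `n`: `n` blocks `10` followed by `0`. -/
def bNat (n : ℕ) : List Bool := (List.replicate n [true, false]).flatten ++ [false]

/-- The code of a list: each entry is preceded by `1`, and the end is marked by `0`. -/
def bList {α : Type} (f : α → List Bool) (l : List α) : List Bool :=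
  (l.flatMap fun a => true :: f a) ++ [false]

/-- The code of a list of strings. -/
def bStrings {k : ℕ} (P : List (List (Fin k))) : List Bool :=
  bList (bList fun a => bNat (Fin.val a)) P

/-- The code of a sample, given by a list of positive and a list of negative strings. -/
def bSample {k : ℕ} (S : List (List (Fin k)) × List (List (Fin k))) : List Bool :=
  true :: (bStrings S.1 ++ bStrings S.2)

/-- The code of a list of productions. -/
def bGrammar (g : List (ℕ × List ℕ)) : List Bool :=
  bList (fun r => true :: (bNat r.1 ++ bList bNat r.2)) g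

/-- A learner: a function from samples to lists of productions, computed by a machine in time
polynomial in the length of the code of the sample, whose output is a grammar for a language
consistent with the sample whenever no string is both positive and negative. -/
def IsLearner (k : ℕ) (A : List (List (Fin k)) × List (List (Fin k)) → List (ℕ × List ℕ)) :
    Prop :=
  Nonempty (TM2ComputableInPolyTime bSample bGrammar A) ∧
    ∀ P N : List (List (Fin k)), (∀ w ∈ P, w ∉ N) →
      (∀ w ∈ P, w ∈ (toCFG k (A (P, N))).language) ∧
      ∀ w ∈ N, w ∉ (toCFG k (A (P, N))).language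

/-- `(P₀, N₀)` is a characteristic sample for the grammar `G` with respect to `A`. -/
def IsCharacteristic {k : ℕ}
    (A : List (List (Fin k)) × List (List (Fin k)) → List (ℕ × List ℕ))
    (G : ContextFreeGrammar (Fin k)) (P₀ N₀ : Finset (List (Fin k))) : Prop :=
  (∀ w ∈ P₀, w ∈ G.language) ∧ (∀ w ∈ N₀, w ∉ G.language) ∧
    ∀ P N : List (List (Fin k)), (∀ w ∈ P, w ∈ G.language) → (∀ w ∈ N, w ∉ G.language) →
      (∀ w ∈ P₀, w ∈ P) → (∀ w ∈ N₀, w ∈ N) → (toCFG k (A (P, N))).language = G.language

open Pool.Agent.PT

lemma bNat_eq (n : ℕ) : bNat n = (enc n).enc := by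
  induction n with
  | zero => rfl
  | succ n ih =>
    rw [enc_succ]
    show bNat (n + 1) = true :: (D.enc .nil ++ (enc n).enc)
    rw [← ih]
    rfl

lemma bList_eq {α : Type} [Enc α] (f : α → List Bool) (hf : ∀ a, f a = (enc a).enc)
    (l : List α) : bList f l = (enc l).enc := by
  induction l with
  | nil => rfl
  | cons a l ih =>
    rw [enc_cons]
    show bList f (a :: l) = true :: ((enc a).enc ++ (enc l).enc)
    rw [← ih, ← hf]
    simp [bList]

lemma bStrings_eq {k : ℕ} (P : List (List (Fin k))) : bStrings P = (enc (vals P)).enc := by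
  have h : ∀ w : List (Fin k), bList (fun a => bNat (Fin.val a)) w =
      (enc (w.map Fin.val)).enc := by
    intro w
    rw [← bList_eq bNat bNat_eq]
    unfold bList
    rw [List.flatMap_map]
  unfold bStrings vals
  rw [← bList_eq (fun w : List ℕ => (enc w).enc) (fun _ => rfl), funext h]
  unfold bList
  rw [List.flatMap_map]

lemma bSample_eq {k : ℕ} (S : List (List (Fin k)) × List (List (Fin k))) :
    bSample S = (enc (vals S.1, vals S.2)).enc := by
  unfold bSample
  rw [bStrings_eq, bStrings_eq]
  rfl

lemma bGrammar_eq (g : List (ℕ × List ℕ)) : bGrammar g = (enc g).enc := by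
  unfold bGrammar
  refine bList_eq _ (fun r => ?_) g
  rw [bNat_eq, bList_eq bNat bNat_eq]
  rfl

/-- There are a learner and a polynomial `q` such that every context-free grammar has a
characteristic sample with at most `q (size)` strings. -/
theorem result (k : ℕ) :
    ∃ (A : List (List (Fin k)) × List (List (Fin k)) → List (ℕ × List ℕ)) (q : Polynomial ℕ),
      IsLearner k A ∧ ∀ G : ContextFreeGrammar (Fin k), ∃ P₀ N₀ : Finset (List (Fin k)),
        IsCharacteristic A G P₀ N₀ ∧ P₀.card + N₀.card ≤ q.eval (gsize G) := by
  refine ⟨fun S => learn k (vals S.1) (vals S.2),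
    (Polynomial.X * (2 * (Polynomial.X + 1 + (k : Polynomial ℕ)) + 4) + 3) ^ 2 + 1,
    ⟨?_, fun P N h => learn_consistent P N h⟩, fun G => ?_⟩
  · have h1 : PTF (fun S : List (List ℕ) × List (List ℕ) => learn k S.1 S.2) :=
      ptf_learn PTF.fst PTF.snd
    obtain ⟨M⟩ := h1.tm2
    refine ⟨{ M.toTM2ComputableAux with
      time := M.time
      outputsFun := fun S => ?_ }⟩
    have h2 := M.outputsFun (vals S.1, vals S.2)
    rw [bSample_eq, bGrammar_eq]
    exact h2
  · obtain ⟨P₀, N₀, h1, h2, h3, h4⟩ := learn_char G
    refine ⟨P₀, N₀, ⟨h1, h2, h4⟩, h3.trans (le_of_eq ?_)⟩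
    simp

end Pool.Agent.Results.MP_35a6f4_lc.FewStrings
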